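import Pool.Agent.HamChrom.D6.Fam

set_option autoImplicit false

namespace Pool.Agent.HamChrom.D6

open Pool.Agent.HamChrom

def certA0 : Cert := ⟨[1], 2 ^ 68, [
  ((.nu 0), [⟨0, 1, [131379343360, 573269524480, 932140105728, 669989011456, 179739086848]⟩]),
  ((.nu 1), [⟨2, 0, [55613435904, 243630784512, 398023557120, 287608504320, 77602295808]⟩, ⟨2, 1, [105467650048, 332676628480, 363804573696, 151449862144, 14854266880]⟩]),
  ((.nu 16), [⟨1, 8, [159000711168, 672801570816, 1064442101760, 746482335744, 195841093632]⟩, ⟨1, 64, [252886011904, 981615591424, 1427495829504, 921688932352, 222922682368]⟩, ⟨1, 72, [27484160, 109936640, 164904960, 109936640, 27484160]⟩, ⟨1, 73, [280246616064, 1111473782784, 1652724596736, 1092014309376, 270516879360]⟩]),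
  ((.nu 2), [⟨3, 0, [101622632448, 400840802304, 592179019776, 388326162432, 95365312512]⟩]),
  ((.nu 3), [⟨0, 0, [195085467648, 783732965376, 1180481863680, 790106701824, 198272335872]⟩, ⟨0, 1, [75209224192, 357837488128, 623068938240, 473462308864, 133021634560]⟩]),
  ((.nu 4), [⟨0, 0, [203195736064, 770985648128, 1093277392896, 686380773376, 160893296640]⟩, ⟨0, 3, [90895118336, 378771202048, 590516330496, 408299540480, 105659289600]⟩, ⟨0, 18, [135167156224, 601963143168, 995391627264, 725562462208, 196966817792]⟩, ⟨0, 19, [208084774912, 774180880384, 1074759696384, 659315851264, 150652260352]⟩]),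
  ((.nu 5), [⟨0, 1, [90492465152, 377192046592, 588118106112, 406629945344, 105211416576]⟩, ⟨0, 3, [27488256, 109936640, 164904960, 109928448, 27480064]⟩]),
  ((.nu 6), [⟨0, 16, [103539073024, 356882014208, 448908386304, 241327009792, 45761568768]⟩]),
  ((.nu 7), [⟨0, 0, [40208113664, 223460761600, 429636820992, 349723824128, 103339646976]⟩, ⟨0, 1, [104018739200, 326226673664, 354567585792, 146530107392, 14170456064]⟩])]⟩

theorem checkA0 : Checked par fams famA true certA0 :=
  ⟨by decide +kernel, by decide +kernel, by decide +kernel⟩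

end Pool.Agent.HamChrom.D6
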