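import Pool.Agent.HamChrom.D6.Fam

set_option autoImplicit false

namespace Pool.Agent.HamChrom.D6

open Pool.Agent.HamChrom

def certH0 : Cert := ⟨[1], 2 ^ 67, [
  ((.nu 0), [⟨0, 16, [37426937856, 125123891200, 173699629056, 107146268672, 24619737088]⟩, ⟨2, 0, [52613349376, 204451348480, 297673949184, 192447250432, 46611300352]⟩]),
  ((.nu 16), [⟨1, 8, [163208757248, 678913114112, 1057747795968, 731591278592, 189547839488]⟩, ⟨1, 9, [155625455616, 599179395072, 863383044096, 551729725440, 131900620800]⟩, ⟨1, 64, [179247775744, 700199206912, 1024911458304, 666216398848, 162256371712]⟩, ⟨1, 72, [69860327424, 276597571584, 410569261056, 270787117056, 66955100160]⟩]),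
  ((.nu 2), [⟨0, 0, [24850087936, 116270886912, 176671555584, 118519869440, 29792968704]⟩, ⟨0, 1, [79054241792, 313794756608, 467058819072, 308950335488, 76632031232]⟩, ⟨3, 0, [153545080832, 633067274240, 978082332672, 671143165952, 172583026688]⟩]),
  ((.nu 4), [⟨0, 0, [239665561600, 975312580608, 1465164054528, 977641680896, 244648501248]⟩, ⟨0, 2, [139337809920, 565445193728, 837268144128, 550141014016, 135504109568]⟩, ⟨0, 3, [27492352, 109977600, 45806862336, 62215626752, 23443537920]⟩, ⟨0, 19, [150746316800, 612230557696, 909392019456, 599666700288, 148282777600]⟩]),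
  ((.nu 6), [⟨0, 0, [8348991488, 1479417856, 165199872, 109977600, 27492352]⟩, ⟨0, 1, [166516899840, 667863805952, 981558706176, 640182661120, 156494716928]⟩])]⟩

theorem checkH0 : Checked par fams famH true certH0 :=
  ⟨by decide +kernel, by decide +kernel, by decide +kernel⟩

end Pool.Agent.HamChrom.D6
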