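import Pool.Agent.HamChrom.D6.Fam

set_option autoImplicit false

namespace Pool.Agent.HamChrom.D6

open Pool.Agent.HamChrom

def certP0 : Cert := ⟨[1], 2 ^ 67, [
  ((.nu 0), [⟨0, 0, [307090161664, 1255049003008, 1922606039040, 1308425715712, 333778518016]⟩]),
  ((.nu 1), [⟨0, 2, [1229943767040, 5026566193152, 7700035772416, 5240148570112, 1336734932992]⟩, ⟨2, 0, [27492352, 110018560, 165306368, 109989888, 27500544]⟩]),
  ((.nu 16), [⟨1, 0, [4859330560, 17323442176, 22780338176, 13027135488, 2711199744]⟩, ⟨1, 8, [983855562752, 4015374024704, 6143997534208, 4177295781888, 1064816418816]⟩]),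
  ((.nu 4), [⟨0, 0, [615321174016, 2514755780608, 3852223070208, 2621463494656, 668675031040]⟩, ⟨0, 2, [307291488256, 1255785103360, 1923723608064, 1309257859072, 334027866112]⟩]),
  ((.nu 5), [⟨0, 0, [307358597120, 1256122744832, 1924216651776, 1309499457536, 334046953472]⟩])]⟩

theorem checkP0 : Checked par fams famP true certP0 :=
  ⟨by decide +kernel, by decide +kernel, by decide +kernel⟩

end Pool.Agent.HamChrom.D6
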