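import Pool.Agent.HamChrom.D6.Fam

set_option autoImplicit false

namespace Pool.Agent.HamChrom.D6

open Pool.Agent.HamChrom

def certS0 : Cert := ⟨[1, 1], 2 ^ 47, [
  ((.nu 0), [⟨2, 0, [2097152, 8388608, 12582912, 8388608, 2097152]⟩]),
  ((.nu 16), [⟨1, 0, [2097152, 8388608, 12582912, 8388608, 2097152]⟩, ⟨1, 8, [1048576, 4243456, 6438912, 4341760, 1097728]⟩]),
  ((.nu 4), [⟨0, 0, [2097152, 8388608, 12582912, 8388608, 2097152]⟩, ⟨0, 2, [1048576, 4243456, 6438912, 4341760, 1097728]⟩])]⟩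

theorem checkS0 : Checked par fams (FF par) true certS0 :=
  ⟨by decide +kernel, by decide +kernel, by decide +kernel⟩

end Pool.Agent.HamChrom.D6
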